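import Pool.Agent.Gen.TY.CF.A
import Pool.Agent.Gen.TY.CF.B

/-!
MP_8ee768_co, project TH-Y', stage F: completeness of the 466 classes with at most 59 blocks from
the two labelled tables.
-/

set_option autoImplicit false
set_option maxRecDepth 100000

namespace Pool.Agent.Gen.TY.CF

open Finset
open Pool.Agent.Helper97.CV
open Pool.Agent.Helper79.CV
open Pool.Agent.Helper82.TY (below)
open Pool.Agent.Helper67.TY (repA repB)
open Pool.Agent.Helper16.TY (eF)
open Pool.Agent.Helper9.TY
open Pool.Agent.Gen.TY.EN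

/-- every odd `(12,4,3)`-cover with at most 59 blocks is isomorphic to a member of `repsF` -/
theorem clsOK_F
    (labA : ∀ D : Finset (Finset (Fin 13)), OddFam 3 (below 12) D → link D 11 = fam 11 3 repA →
      2 * D.card ≤ 118 → ∃ e ∈ enA.flatten, D = eF repA e)
    (labB : ∀ D : Finset (Finset (Fin 13)), OddFam 3 (below 12) D → link D 11 = fam 11 3 repB →
      2 * D.card ≤ 118 → ∃ e ∈ enB.flatten, D = eF repB e) : ClsOK 4 repsF := by
  refine clsOK_of_lab (by norm_num) ?_ ?_
  · intro D h1 h2 h3
    obtain ⟨e, he, rfl⟩ := labA D h1 h2 h3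
    rw [List.mem_flatten] at he
    obtain ⟨es, hes, he⟩ := he
    exact cfA es hes e he
  · intro D h1 h2 h3
    obtain ⟨e, he, rfl⟩ := labB D h1 h2 h3
    rw [List.mem_flatten] at he
    obtain ⟨es, hes, he⟩ := he
    exact cfB es hes e he

end Pool.Agent.Gen.TY.CF
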