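import Pool.Agent.Gen.TY.CF.All
import Pool.Agent.Helper25.EN.Tab

/-!
MP_8ee768_co, project TH-Y', stage F: completeness of the 466 classes with at most 59 blocks from
the four counts with cap 4.
-/

set_option autoImplicit false

namespace Pool.Agent.Gen.TY.CF

open Pool.Agent.Helper79.CV
open Pool.Agent.Helper25.EN

/-- every odd `(12,4,3)`-cover with at most 59 blocks is isomorphic to a member of `repsF` -/
theorem clsOK_F_of_counts (hA : CountA) (hB : CountB) : ClsOK 4 repsF :=
  clsOK_F (labA hA) (labB hB)

end Pool.Agent.Gen.TY.CF
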